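import Mathlib

set_option autoImplicit false

open Set Topology Filter

namespace Pool.Agent.Results.MP_d55beb_gt.NotKR

/-- The sequential fan: a point `inf` and isolated points `pt n m`. -/
inductive Fan : Type
  | inf : Fan
  | pt : ℕ → ℕ → Fan

/-- A set is open in the fan iff, when it contains `inf`, it contains a basic neighbourhood
`{inf} ∪ {(n, m) : m ≥ f n}`. -/
instance : TopologicalSpace Fan where
  IsOpen U := Fan.inf ∈ U → ∃ f : ℕ → ℕ, ∀ n m, f n ≤ m → Fan.pt n m ∈ U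
  isOpen_univ := fun _ => ⟨fun _ => 0, fun _ _ _ => trivial⟩
  isOpen_inter := by
    rintro U V hU hV ⟨h1, h2⟩
    obtain ⟨f, hf⟩ := hU h1
    obtain ⟨g, hg⟩ := hV h2
    exact ⟨fun n => max (f n) (g n), fun n m h =>
      ⟨hf n m ((le_max_left _ _).trans h), hg n m ((le_max_right _ _).trans h)⟩⟩
  isOpen_sUnion := by
    rintro S hS ⟨U, hU, h⟩
    obtain ⟨f, hf⟩ := hS U hU h
    exact ⟨f, fun n m h => ⟨U, hU, hf n m h⟩⟩

/-- The Arens space: `inf`, the points `a n` and the isolated points `b n m`. -/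
inductive Arens : Type
  | inf : Arens
  | a : ℕ → Arens
  | b : ℕ → ℕ → Arens

/-- A set is open in the Arens space iff with `a n` it contains almost all `b n m`, and with `inf`
it contains almost all `a n`. -/
instance : TopologicalSpace Arens where
  IsOpen U := (∀ n, Arens.a n ∈ U → ∃ k, ∀ m, k ≤ m → Arens.b n m ∈ U) ∧
    (Arens.inf ∈ U → ∃ k, ∀ n, k ≤ n → Arens.a n ∈ U)
  isOpen_univ := ⟨fun _ _ => ⟨0, fun _ _ => trivial⟩, fun _ => ⟨0, fun _ _ => trivial⟩⟩
  isOpen_inter := by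
    rintro U V hU hV
    constructor
    · rintro n ⟨h1, h2⟩
      obtain ⟨k, hk⟩ := hU.1 n h1
      obtain ⟨l, hl⟩ := hV.1 n h2
      exact ⟨max k l, fun m h =>
        ⟨hk m ((le_max_left _ _).trans h), hl m ((le_max_right _ _).trans h)⟩⟩
    · rintro ⟨h1, h2⟩
      obtain ⟨k, hk⟩ := hU.2 h1
      obtain ⟨l, hl⟩ := hV.2 h2
      exact ⟨max k l, fun m h =>
        ⟨hk m ((le_max_left _ _).trans h), hl m ((le_max_right _ _).trans h)⟩⟩
  isOpen_sUnion := by
    intro S hS
    constructor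
    · rintro n ⟨U, hU, h⟩
      obtain ⟨k, hk⟩ := (hS U hU).1 n h
      exact ⟨k, fun m h => ⟨U, hU, hk m h⟩⟩
    · rintro ⟨U, hU, h⟩
      obtain ⟨k, hk⟩ := (hS U hU).2 h
      exact ⟨k, fun m h => ⟨U, hU, hk m h⟩⟩

lemma general {X : Type} [TopologicalSpace X] (z : X) (b : ℕ → ℕ → X)
    (hinj : ∀ n m n' m', b n m = b n' m' → n = n') (hz : ∀ n m, z ≠ b n m)
    (hcl : ∀ n m, IsClopen {b n m})
    (hop : ∀ (g : ℕ → ℕ) (N : ℕ), IsOpen {x | ∀ n, N ≤ n → x ≠ b n (g n)})
    (hU : ∀ U, IsOpen U → z ∈ U → ∀ N, ∃ n m, N ≤ n ∧ b n m ∈ U) :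
    ∃ f : (ℕ → X) → ℝ, (∀ K : Set (ℕ → X), IsCompact K → ContinuousOn f K) ∧ ¬ Continuous f := by
  classical
  have hK : ∀ K : Set X, IsCompact K → ∃ N, ∀ n m, b n m ∈ K → n < N := by
    intro K hK
    let g : ℕ → ℕ := fun n => if h : ∃ m, b n m ∈ K then h.choose else 0
    obtain ⟨N, hN⟩ := hK.elim_directed_cover (fun N => {x | ∀ n, N ≤ n → x ≠ b n (g n)})
      (hop g) (fun x _ => by
        by_cases h : ∃ n, x = b n (g n)
        · obtain ⟨n, rfl⟩ := h
          refine mem_iUnion.2 ⟨n + 1, fun k hk h => ?_⟩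
          have := hinj _ _ _ _ h
          omega
        · exact mem_iUnion.2 ⟨0, fun k _ h' => h ⟨k, h'⟩⟩)
      (directed_of_isDirected_le fun N M h x hx n hn => hx n (h.trans hn))
    refine ⟨N, fun n m h => ?_⟩
    by_contra hc
    have h1 : ∃ m, b n m ∈ K := ⟨m, h⟩
    have h2 : b n (g n) ∈ K := by
      simp only [g, dif_pos h1]
      exact h1.choose_spec
    exact hN h2 n (not_lt.1 hc) rfl
  let P : ℕ → ℕ → Set (ℕ → X) := fun n m =>
    {x | x 0 = b n m} ∩ ((⋂ i ∈ Finset.range n, {x | x (i + 1) = b 0 0}) ∩ {x | x (n + 1) = b m 0})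
  have hev : ∀ i n m, IsClopen {x : ℕ → X | x i = b n m} := fun i n m =>
    (hcl n m).preimage (continuous_apply i)
  have hP : ∀ n m, IsClopen (P n m) := fun n m =>
    (hev _ _ _).inter ((isClopen_biInter_finset fun i _ => hev _ _ _).inter (hev _ _ _))
  refine ⟨(⋃ n, ⋃ m, P n m).indicator fun _ => 1, fun K hKc => ?_, fun hc => ?_⟩
  · choose N hN using fun i => hK _ (hKc.image (continuous_apply i))
    have h1 : IsClopen (⋃ n ∈ Finset.range (N 0), ⋃ m ∈ Finset.range (N (n + 1)), P n m) :=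
      isClopen_biUnion_finset fun n _ => isClopen_biUnion_finset fun m _ => hP n m
    refine (h1.continuous_indicator (continuous_const (y := (1 : ℝ)))).continuousOn.congr
      fun x hx => ?_
    have : x ∈ (⋃ n, ⋃ m, P n m) ↔
        x ∈ ⋃ n ∈ Finset.range (N 0), ⋃ m ∈ Finset.range (N (n + 1)), P n m := by
      simp only [mem_iUnion, Finset.mem_range]
      constructor
      · rintro ⟨n, m, h⟩
        exact ⟨n, hN 0 n m ⟨x, hx, h.1⟩, m, hN (n + 1) m 0 ⟨x, hx, h.2.2⟩, h⟩
      · rintro ⟨n, -, m, -, h⟩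
        exact ⟨n, m, h⟩
    simp only [indicator, this]
  · have h1 := isOpen_lt hc (continuous_const (y := (1 : ℝ)))
    let y : ℕ → X := fun i => if i = 0 then z else b 0 0
    have hy : y ∈ {x | (⋃ n, ⋃ m, P n m).indicator (fun _ => (1 : ℝ)) x < 1} := by
      show (⋃ n, ⋃ m, P n m).indicator (fun _ => (1 : ℝ)) y < 1
      rw [indicator_of_notMem]
      · exact one_pos
      · simp only [mem_iUnion, not_exists]
        exact fun n m h => hz n m h.1
    obtain ⟨F, v, hv, hFU⟩ := isOpen_pi_iff.1 h1 _ hy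
    obtain ⟨n, m, hn, hm⟩ := hU (if 0 ∈ F then v 0 else univ)
      (by split_ifs with h; exacts [(hv 0 h).1, isOpen_univ])
      (by split_ifs with h; exacts [(hv 0 h).2, trivial]) (F.sup id)
    let x : ℕ → X := fun i => if i = 0 then b n m else if i = n + 1 then b m 0 else b 0 0
    have hx : x ∈ P n m := by
      refine ⟨rfl, ?_, by simp [x]⟩
      simp only [mem_iInter, Finset.mem_range, mem_setOf_eq]
      intro i hi
      simp [x, hi.ne]
    have h2 := hFU (a := x) fun i hi => by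
      by_cases h0 : i = 0
      · subst h0
        rw [if_pos (show 0 ∈ F from hi)] at hm
        exact hm
      · have h3 : i ≤ F.sup id := Finset.le_sup (f := id) hi
        have h4 : i ≠ n + 1 := by omega
        have h5 := (hv i hi).2
        simp only [x, y, h0, h4, if_false] at h5 ⊢
        exact h5
    have h3 : (⋃ n, ⋃ m, P n m).indicator (fun _ => (1 : ℝ)) x < 1 := h2
    rw [indicator_of_mem (mem_iUnion.2 ⟨n, mem_iUnion.2 ⟨m, hx⟩⟩)] at h3
    exact lt_irrefl _ h3

/-- Neither the countable power of the Arens space nor that of the sequential fan is a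
`k_ℝ`-space. -/
theorem result :
    (∃ f : (ℕ → Arens) → ℝ,
      (∀ K : Set (ℕ → Arens), IsCompact K → ContinuousOn f K) ∧ ¬ Continuous f) ∧
    (∃ f : (ℕ → Fan) → ℝ,
      (∀ K : Set (ℕ → Fan), IsCompact K → ContinuousOn f K) ∧ ¬ Continuous f) := by
  constructor
  · refine general Arens.inf Arens.b (fun _ _ _ _ h => by cases h; rfl) (fun _ _ h => by cases h)
      (fun n m => ⟨⟨⟨fun k _ => ⟨m + 1, fun j hj h => ?_⟩, fun _ => ⟨0, fun j _ h => ?_⟩⟩⟩,
        ⟨fun _ h => ?_, fun h => ?_⟩⟩) (fun g N => ⟨fun n _ => ⟨g n + 1, fun m hm k _ h => ?_⟩,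
        fun _ => ⟨0, fun n _ k _ h => ?_⟩⟩) fun U hU hz N => ?_
    · cases h; omega
    · cases h
    · cases h
    · cases h
    · cases h; omega
    · cases h
    · obtain ⟨k, hk⟩ := hU.2 hz
      obtain ⟨l, hl⟩ := hU.1 _ (hk (max k N) (le_max_left _ _))
      exact ⟨_, l, le_max_right _ _, hl l le_rfl⟩
  · refine general Fan.inf Fan.pt (fun _ _ _ _ h => by cases h; rfl) (fun _ _ h => by cases h)
      (fun n m => ⟨⟨fun _ => ⟨fun _ => m + 1, fun k j hj h => ?_⟩⟩, fun h => ?_⟩)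
      (fun g N _ => ⟨fun n => g n + 1, fun n m hm k _ h => ?_⟩) fun U hU hz N => ?_
    · cases h; exact absurd hj (by simp)
    · cases h
    · cases h; exact absurd hm (by simp)
    · obtain ⟨f, hf⟩ := hU hz
      exact ⟨N, f N, le_rfl, hf _ _ le_rfl⟩

end Pool.Agent.Results.MP_d55beb_gt.NotKR
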